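import Pool.Agent.N669.CQ.Stm

/-!
# Circumscribed triangles can be improved (helper93)
-/

set_option autoImplicit false

namespace Pool.Agent.N93.CQ

open MeasureTheory Set Pool.Agent.N669.CQ

theorem cut1 {K : Set P} (hK : IsClosed K) {p q r : P} (hD : 0 < cr (q - p) (r - p))
    (h1 : LF K p q) (h2 : LF K q r) (h3 : LF K r p) (hp : p ∉ K) :
    ∃ a b c d : P, Ci K a b c d ∧ ar a b c d < cr (q - p) (r - p) / 2 := by
  obtain ⟨ρ, hρ, hball⟩ := Metric.isOpen_iff.1 hK.isOpen_compl p hp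
  obtain ⟨S, hS⟩ : ∃ S, S = ‖q - p‖ + ‖r - p‖ := ⟨_, rfl⟩
  have hS0 : 0 ≤ S := by rw [hS]; positivity
  obtain ⟨e, he⟩ : ∃ e, e = ρ / (ρ + S + 1) := ⟨_, rfl⟩
  have he0 : 0 < e := by rw [he]; positivity
  have he1 : e < 1 := by
    rw [he, div_lt_one (by positivity)]
    linarith
  have heS : e * S < ρ := by
    rw [he, div_mul_eq_mul_div, div_lt_iff₀ (by positivity)]
    nlinarith
  obtain ⟨D, hDd⟩ : ∃ D, D = cr (q - p) (r - p) := ⟨_, rfl⟩
  rw [← hDd] at hD ⊢
  have hD' : D = (q.1 - p.1) * (r.2 - p.2) - (q.2 - p.2) * (r.1 - p.1) := hDd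
  have he2 : 0 < (1 - e) * D := mul_pos (by linarith) hD
  have he3 : 0 < e * (1 - e) * D := mul_pos (mul_pos he0 (by linarith)) hD
  refine ⟨p + e • (q - p), q, r, p + e • (r - p), ⟨⟨?_, ?_, ?_, ?_⟩, ⟨?_, ?_, ?_, ?_⟩⟩, ?_⟩
  · refine lt_of_lt_of_eq he3 ?_
    simp only [cr, Prod.fst_sub, Prod.snd_sub, Prod.fst_add, Prod.snd_add, Prod.smul_fst,
      Prod.smul_snd, smul_eq_mul]
    rw [hD']
    ring
  · refine lt_of_lt_of_eq he2 ?_
    simp only [cr, Prod.fst_sub, Prod.snd_sub, Prod.fst_add, Prod.snd_add, Prod.smul_fst,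
      Prod.smul_snd, smul_eq_mul]
    rw [hD']
    ring
  · refine lt_of_lt_of_eq he2 ?_
    simp only [cr, Prod.fst_sub, Prod.snd_sub, Prod.fst_add, Prod.snd_add, Prod.smul_fst,
      Prod.smul_snd, smul_eq_mul]
    rw [hD']
    ring
  · refine lt_of_lt_of_eq he3 ?_
    simp only [cr, Prod.fst_sub, Prod.snd_sub, Prod.fst_add, Prod.snd_add, Prod.smul_fst,
      Prod.smul_snd, smul_eq_mul]
    rw [hD']
    ring
  · intro k hk
    have h4 := mul_nonneg (by linarith : (0 : ℝ) ≤ 1 - e) (h1 k hk)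
    refine h4.trans_eq ?_
    simp only [cr, Prod.fst_sub, Prod.snd_sub, Prod.fst_add, Prod.snd_add, Prod.smul_fst,
      Prod.smul_snd, smul_eq_mul]
    ring
  · exact h2
  · intro k hk
    have h4 := mul_nonneg (by linarith : (0 : ℝ) ≤ 1 - e) (h3 k hk)
    refine h4.trans_eq ?_
    simp only [cr, Prod.fst_sub, Prod.snd_sub, Prod.fst_add, Prod.snd_add, Prod.smul_fst,
      Prod.smul_snd, smul_eq_mul]
    ring
  · intro k hk
    obtain ⟨X, hX⟩ : ∃ X, X = cr (k - p) (r - p) := ⟨_, rfl⟩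
    obtain ⟨Y, hY⟩ : ∃ Y, Y = cr (q - p) (k - p) := ⟨_, rfl⟩
    have hY0 : 0 ≤ Y := hY ▸ h1 k hk
    have hX0 : 0 ≤ X := by
      have h4 := h3 k hk
      rw [hX]
      refine h4.trans_eq ?_
      simp only [cr, Prod.fst_sub, Prod.snd_sub]
      ring
    have hkey : e * D ≤ X + Y := by
      by_contra hlt
      push Not at hlt
      have h5 : D • (k - p) = X • (q - p) + Y • (r - p) := by
        rw [hX, hY, hDd]
        ext
        · simp only [cr, Prod.fst_sub, Prod.snd_sub, Prod.fst_add, Prod.snd_add, Prod.smul_fst,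
            Prod.smul_snd, smul_eq_mul]
          ring
        · simp only [cr, Prod.fst_sub, Prod.snd_sub, Prod.fst_add, Prod.snd_add, Prod.smul_fst,
            Prod.smul_snd, smul_eq_mul]
          ring
      have h6 : D * ‖k - p‖ ≤ X * ‖q - p‖ + Y * ‖r - p‖ := by
        have h7 := norm_add_le (X • (q - p)) (Y • (r - p))
        rw [← h5, norm_smul, norm_smul, norm_smul, Real.norm_of_nonneg hD.le,
          Real.norm_of_nonneg hX0, Real.norm_of_nonneg hY0] at h7
        exact h7
      have h8 : X * ‖q - p‖ + Y * ‖r - p‖ ≤ (X + Y) * S := by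
        rw [hS]
        have := norm_nonneg (q - p)
        have := norm_nonneg (r - p)
        nlinarith [mul_nonneg hX0 (norm_nonneg (r - p)), mul_nonneg hY0 (norm_nonneg (q - p))]
      have h9 : (X + Y) * S ≤ e * D * S := mul_le_mul_of_nonneg_right hlt.le hS0
      have h10 : D * ‖k - p‖ < D * ρ := by
        calc D * ‖k - p‖ ≤ e * D * S := (h6.trans h8).trans h9
          _ = D * (e * S) := by ring
          _ < D * ρ := mul_lt_mul_of_pos_left heS hD
      have h11 : ‖k - p‖ < ρ := lt_of_mul_lt_mul_left h10 hD.le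
      exact hball (by rwa [Metric.mem_ball, dist_eq_norm]) hk
    have h12 : 0 ≤ e * (X + Y - e * D) := mul_nonneg he0.le (by linarith)
    refine h12.trans_eq ?_
    rw [hX, hY, hDd]
    simp only [cr, Prod.fst_sub, Prod.snd_sub, Prod.fst_add, Prod.snd_add, Prod.smul_fst,
      Prod.smul_snd, smul_eq_mul]
    ring
  · have h4 : ar (p + e • (q - p)) q r (p + e • (r - p)) = (1 - e ^ 2) * D / 2 := by
      unfold ar
      rw [hDd]
      simp only [cr, Prod.fst_sub, Prod.snd_sub, Prod.fst_add, Prod.snd_add, Prod.smul_fst,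
        Prod.smul_snd, smul_eq_mul]
      ring
    rw [h4]
    have : 0 < e ^ 2 * D := by positivity
    linarith

/-- **CUT** -/
theorem t_CUT (h : S_TRI) : S_CUT := by
  intro K hK p q r hD h1 h2 h3 hvol
  have hc := hK.comp.isClosed
  have e1 : cr (r - q) (p - q) = cr (q - p) (r - p) := by
    simp only [cr, Prod.fst_sub, Prod.snd_sub]
    ring
  have e2 : cr (p - r) (q - r) = cr (q - p) (r - p) := by
    simp only [cr, Prod.fst_sub, Prod.snd_sub]
    ring
  by_cases hp : p ∈ K
  · by_cases hq : q ∈ K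
    · by_cases hr : r ∈ K
      · exfalso
        have h4 : convexHull ℝ {p, q, r} ⊆ K := by
          refine convexHull_min ?_ hK.conv
          intro x hx
          rcases hx with rfl | rfl | rfl
          · exact hp
          · exact hq
          · exact hr
        have h5 := measure_mono (μ := volume) h4
        rw [h p q r, abs_of_pos hD] at h5
        have h6 : cr (q - p) (r - p) / 2 ≤ vol K :=
          (ENNReal.ofReal_le_iff_le_toReal hK.comp.measure_lt_top.ne).1 h5
        linarith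
      · rw [← e2] at hD ⊢
        exact cut1 hc hD h3 h1 h2 hr
    · rw [← e1] at hD ⊢
      exact cut1 hc hD h2 h3 h1 hq
  · exact cut1 hc hD h1 h2 h3 hp

end Pool.Agent.N93.CQ
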